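import Pool.Agent.helper62.DP8.Spec

set_option autoImplicit false

namespace Pool.Agent.helper62.DP8

theorem SPP_d2 (hTRR : TRR_stmt) (hTDD : TDD_stmt) (V : Type) (G : SimpleGraph V) (g : ℕ) (s : St) (v : ℕ → V)
    (hC : Cub G) (hR : Real G s v) (x y : ℕ) (hx : x < s.n) (hy : y < s.n) (hA : G.Adj (v x) (v y))
    (hn : ¬ tb (ent (tbl g s).R x) y = true) : tb (tbl g s).D2 x = true := by
  obtain ⟨h1, h2, h3⟩ := hTDD V G g s v hC hR
  rw [h2]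
  refine ⟨hx, ?_⟩
  obtain ⟨U, hU, hz⟩ := h3 x hx
  have hm : v y ∈ U := by
    rw [hz]
    refine ⟨hA, fun y' hy' he => ?_⟩
    obtain ⟨-, hy'n, -, -, -⟩ := (hTRR V G g s v hR).2 x y' hy'
    have := hR.inj y hy y' hy'n he
    rw [this] at hn
    exact hn hy'
  have : 1 ≤ U.card := Finset.card_pos.mpr ⟨_, hm⟩
  omega

theorem SPP (hBIT : BIT_stmt) (hORS : ORS_stmt) (hTAB : TAB_stmt) (hWTB : WTB_stmt) (hTRR : TRR_stmt)
    (hTDD : TDD_stmt) (hBAL : BAL_stmt) : SPP_stmt := by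
  intro V G g s v hg hC hG hR x y hx hy hA
  obtain ⟨hb1, hb2, hb3, hb4, hb5, hb6, hb7⟩ := hBIT
  obtain ⟨ho1, ho2, ho3, ho4, ho5, ho6⟩ := hORS
  obtain ⟨ht1, ht2, ht3, ht4⟩ := hTAB
  have hP := (hWTB.2.1 g s).2.2.2.1
  have hy32 : y < 32 := lt_of_lt_of_le hy hR.n32
  rw [hP, ht3]
  refine ⟨hx, hy32, ?_⟩
  by_cases hn : tb (ent (tbl g s).R x) y = true
  · rw [hb2, hn]; rfl
  have hn' : ¬ tb (ent (tbl g s).R y) x = true := by
    intro h
    exact hn ((hTRR V G g s v hR).2 y x h).2.2.2.2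
  have hD2x : tb (tbl g s).D2 x = true := SPP_d2 hTRR hTDD V G g s v hC hR x y hx hy hA hn
  have hD2y : tb (tbl g s).D2 y = true := SPP_d2 hTRR hTDD V G g s v hC hR y x hy hx hA.symm hn'
  have hvne : ∀ a b, a < s.n → b < s.n → a ≠ b → v a ≠ v b := fun a b ha hb hab he => hab (hR.inj a ha b hb he)
  -- not in NA
  have hNA : ¬ tb (ent (rows s.NA) x) y = true := by
    rw [ht4 s.NA (fun e he => ⟨lt_of_lt_of_le (hR.wfNA e he).1 hR.n32, lt_of_lt_of_le (hR.wfNA e he).2.1 hR.n32⟩)]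
    rintro (h | h)
    · exact (hR.wfNA _ h).2.2 hA
    · exact (hR.wfNA _ h).2.2 hA.symm
  have hNRr : ∀ a b, tb (ent (rows s.NR) a) b = true → a < s.n ∧ b < s.n ∧ a ≠ b ∧ ¬ (sq G).Adj (v a) (v b) := by
    intro a b h
    rw [ht4 s.NR (fun e he => ⟨lt_of_lt_of_le (hR.wfNR e he).1 hR.n32, lt_of_lt_of_le (hR.wfNR e he).2.1 hR.n32⟩)] at h
    rcases h with h | h
    · exact hR.wfNR _ h
    · obtain ⟨h1, h2, h3, h4⟩ := hR.wfNR _ h
      exact ⟨h2, h1, fun h => h3 h.symm, fun h => h4 h.symm⟩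
  have hBl : ¬ tb (ent (ball s.n (tbl g s).R (g - 2)) x) y = true := by
    intro h
    obtain ⟨-, -, p, hp, hl, -, he⟩ := hBAL V G g s v hR (g - 2) x y h
    have hc : (SimpleGraph.Walk.cons hA.symm p).IsCycle := by
      rw [SimpleGraph.Walk.cons_isCycle_iff]
      refine ⟨hp, fun hm => hn' (he y hy x hx hm)⟩
    have := hG _ _ hc
    rw [SimpleGraph.Walk.length_cons] at this
    omega
  have hO1 : ¬ tb (orS (ent (rows s.NR) x) (fun w => ent (tbl g s).R w) s.n) y = true := by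
    rw [ho1]
    rintro ⟨w, hw, h1, h2⟩
    obtain ⟨-, -, hxw, hna⟩ := hNRr x w h1
    obtain ⟨-, -, -, hwy, -⟩ := (hTRR V G g s v hR).2 w y h2
    exact hna ⟨hvne x w hx hw hxw, Or.inr ⟨v y, hA, hwy.symm⟩⟩
  have hO2 : ¬ tb (orS (ent (tbl g s).R x) (fun w => ent (rows s.NR) w) s.n) y = true := by
    rw [ho1]
    rintro ⟨w, hw, h1, h2⟩
    obtain ⟨-, -, hwy, hna⟩ := hNRr w y h2
    obtain ⟨-, -, -, hxw, -⟩ := (hTRR V G g s v hR).2 x w h1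
    exact hna ⟨hvne w y hw hy hwy, Or.inr ⟨v x, hxw.symm, hA⟩⟩
  rw [hD2x, cond_true, hb2, hb4, hb2, hb2, hb2, hD2y]
  simp only [Bool.not_eq_true] at hn hNA hBl hO1 hO2
  rw [hn, hNA, hBl, hO1, hO2]
  rfl

end Pool.Agent.helper62.DP8
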